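import Pool.Agent.Run7.h495.SV.Stm

set_option autoImplicit false
open MeasureTheory Set Filter Topology Metric Module
open scoped ENNReal RealInnerProductSpace ContDiff

namespace Pool.Agent.Run7.h579.SV

open Pool.Agent.Run7.h495.SV

theorem sinc_low {y : ℝ} (hy : |y| ≤ 1) : 1 ≤ 4 * Real.sinc y ^ 2 := by
  have key : ∀ y : ℝ, 0 ≤ y → y ≤ 1 → 1 ≤ 4 * Real.sinc y ^ 2 := by
    intro y hy0 hy1
    rcases eq_or_lt_of_le hy0 with h | h
    · rw [← h, Real.sinc_zero]
      norm_num
    · rw [Real.sinc_of_ne_zero h.ne']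
      have hpi := Real.pi_le_four
      have h3 := Real.pi_gt_three
      have h1 : 2 / Real.pi * y ≤ Real.sin y := Real.mul_le_sin hy0 (by linarith)
      have h2 : y / 2 ≤ Real.sin y := by
        refine le_trans ?_ h1
        have h4 : (1 : ℝ) / 2 ≤ 2 / Real.pi := by
          rw [div_le_div_iff₀ (by norm_num) (by linarith)]
          linarith
        calc y / 2 = 1 / 2 * y := by ring
          _ ≤ 2 / Real.pi * y := mul_le_mul_of_nonneg_right h4 hy0
      have h5 : (1 : ℝ) / 2 ≤ Real.sin y / y := by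
        rw [le_div_iff₀ h]
        linarith
      nlinarith
  rcases le_total 0 y with h | h
  · exact key y h (by rwa [abs_of_nonneg h] at hy)
  · have := key (-y) (by linarith) (by rwa [abs_of_nonpos h] at hy)
    rwa [Real.sinc_neg] at this

/-- the antiderivative -/
theorem anti (X : ℝ) (hX : 0 < X) (s : ℝ) (hs : 0 < s) :
    HasDerivAt (fun s : ℝ => -((X / s) / 2 - Real.sin (2 * (X / s)) / 4) / X)
      (Real.sin (X / s) ^ 2 / s ^ 2) s := by
  have h1 : HasDerivAt (fun s : ℝ => X / s) (-X / s ^ 2) s := by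
    have := (hasDerivAt_inv hs.ne').const_mul X
    have e : X * (-(s ^ 2)⁻¹) = -X / s ^ 2 := by ring
    rw [e] at this
    exact this
  have h2 : HasDerivAt (fun s : ℝ => Real.sin (2 * (X / s)))
      (Real.cos (2 * (X / s)) * (2 * (-X / s ^ 2))) s := (h1.const_mul 2).sin
  have h3 := ((h1.div_const 2).sub (h2.div_const 4)).neg.div_const X
  refine h3.congr_deriv ?_
  have h4 : Real.cos (2 * (X / s)) = 1 - 2 * Real.sin (X / s) ^ 2 := by
    rw [Real.cos_two_mul, Real.cos_sq']
    ring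
  rw [h4]
  field_simp
  ring

theorem int_low (X : ℝ) (hX : 8 ≤ X) :
    3 / 16 ≤ ∫ s in (1:ℝ)..2, Real.sin (X / s) ^ 2 / s ^ 2 := by
  have hX0 : 0 < X := by linarith
  have hcont : ContinuousOn (fun s : ℝ => Real.sin (X / s) ^ 2 / s ^ 2) (Set.uIcc 1 2) := by
    rw [Set.uIcc_of_le (by norm_num : (1:ℝ) ≤ 2)]
    intro s hs
    have hs0 : s ≠ 0 := by have := hs.1; linarith
    have h1 : ContinuousAt (fun s : ℝ => Real.sin (X / s) ^ 2 / s ^ 2) s := by
      have h2 : ContinuousAt (fun s : ℝ => X / s) s := continuousAt_const.div continuousAt_id hs0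
      exact ((Real.continuous_sin.continuousAt.comp h2).pow 2).div (continuousAt_id.pow 2)
        (pow_ne_zero 2 hs0)
    exact h1.continuousWithinAt
  have h := intervalIntegral.integral_eq_sub_of_hasDerivAt (a := (1:ℝ)) (b := 2)
    (f := fun s : ℝ => -((X / s) / 2 - Real.sin (2 * (X / s)) / 4) / X)
    (f' := fun s : ℝ => Real.sin (X / s) ^ 2 / s ^ 2)
    (fun s hs => by
      rw [Set.uIcc_of_le (by norm_num : (1:ℝ) ≤ 2)] at hs
      exact anti X hX0 s (by linarith [hs.1])) hcont.intervalIntegrable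
  rw [h]
  have h1 := Real.sin_le_one (2 * (X / 2))
  have h2 := Real.neg_one_le_sin (2 * (X / 2))
  have h3 := Real.sin_le_one (2 * (X / 1))
  have h4 := Real.neg_one_le_sin (2 * (X / 1))
  rw [← sub_div, le_div_iff₀ hX0]
  linarith

theorem t_LOW : S_LOW := by
  intro n i₀ q hq
  obtain ⟨K, hK⟩ : ∃ K : ℝ, K = (2:ℝ) ^ (-1 - q - n : ℝ) := ⟨_, rfl⟩
  have hK0 : 0 < K := by rw [hK]; positivity
  refine ⟨K * (3 / 4), by positivity, ?_⟩
  intro x hx hX
  obtain ⟨X, hXdef⟩ : ∃ X, X = x i₀ := ⟨_, rfl⟩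
  rw [← hXdef] at hX ⊢
  have hX0 : 0 < X := by linarith
  have hker : ∀ s ∈ Set.Icc (1:ℝ) 2,
      K * (4 / X ^ 2) * (Real.sin (X / s) ^ 2 / s ^ 2) ≤ ker n q s x := by
    intro s hs
    have hs0 : 0 < s := by linarith [hs.1]
    have h1 : K ≤ s ^ (-1 - q - n : ℝ) := by
      rw [hK]
      refine Real.rpow_le_rpow_of_nonpos hs0 hs.2 ?_
      have : (0:ℝ) ≤ n := Nat.cast_nonneg n
      linarith
    have h2 : 4 / X ^ 2 * (Real.sin (X / s) ^ 2 / s ^ 2) ≤ covHat (s⁻¹ • x) := by
      unfold covHat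
      rw [← Finset.mul_prod_erase Finset.univ _ (Finset.mem_univ i₀)]
      have hone : 1 ≤ ∏ i ∈ Finset.univ.erase i₀, 4 * Real.sinc ((s⁻¹ • x) i) ^ 2 := by
        refine Finset.prod_induction _ (fun a : ℝ => 1 ≤ a)
          (fun a b ha hb => one_le_mul_of_one_le_of_one_le ha hb) le_rfl ?_
        intro i hi
        have hne := Finset.ne_of_mem_erase hi
        refine sinc_low ?_
        have e : (s⁻¹ • x) i = s⁻¹ * x i := rfl
        rw [e, abs_mul, abs_of_pos (inv_pos.mpr hs0)]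
        have h3 := hx i hne
        have h4 : s⁻¹ ≤ 1 := inv_le_one_of_one_le₀ hs.1
        have h5 := abs_nonneg (x i)
        nlinarith [inv_pos.mpr hs0]
      have hfirst : 4 / X ^ 2 * (Real.sin (X / s) ^ 2 / s ^ 2) ≤
          4 * Real.sinc ((s⁻¹ • x) i₀) ^ 2 := by
        have e : (s⁻¹ • x) i₀ = X / s := by
          have : (s⁻¹ • x) i₀ = s⁻¹ * x i₀ := rfl
          rw [this, ← hXdef]
          field_simp
        rw [e, Real.sinc_of_ne_zero (by positivity)]
        have e2 : 4 * (Real.sin (X / s) / (X / s)) ^ 2 =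
            4 / X ^ 2 * (Real.sin (X / s) ^ 2 * s ^ 2) := by
          field_simp
        rw [e2]
        refine mul_le_mul_of_nonneg_left ?_ (by positivity)
        rw [div_le_iff₀ (by positivity)]
        have h3 : (1:ℝ) ≤ s ^ 2 * s ^ 2 :=
          one_le_mul_of_one_le_of_one_le (one_le_pow₀ hs.1) (one_le_pow₀ hs.1)
        calc Real.sin (X / s) ^ 2 = Real.sin (X / s) ^ 2 * 1 := by ring
          _ ≤ Real.sin (X / s) ^ 2 * (s ^ 2 * s ^ 2) :=
            mul_le_mul_of_nonneg_left h3 (sq_nonneg _)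
          _ = _ := by ring
      calc 4 / X ^ 2 * (Real.sin (X / s) ^ 2 / s ^ 2)
          ≤ 4 * Real.sinc ((s⁻¹ • x) i₀) ^ 2 := hfirst
        _ = 4 * Real.sinc ((s⁻¹ • x) i₀) ^ 2 * 1 := by ring
        _ ≤ _ := mul_le_mul_of_nonneg_left hone (by positivity)
    unfold Pool.Agent.Run7.h495.SV.ker
    rw [mul_assoc]
    exact mul_le_mul h1 h2 (by positivity) (by positivity)
  have hcont : ContinuousOn (fun s : ℝ => K * (4 / X ^ 2) * (Real.sin (X / s) ^ 2 / s ^ 2))
      (Set.Icc 1 2) := by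
    intro s hs
    have hs0 : s ≠ 0 := by have := hs.1; linarith
    have h2 : ContinuousAt (fun s : ℝ => X / s) s := continuousAt_const.div continuousAt_id hs0
    have h1 : ContinuousAt (fun s : ℝ => Real.sin (X / s) ^ 2 / s ^ 2) s :=
      ((Real.continuous_sin.continuousAt.comp h2).pow 2).div (continuousAt_id.pow 2)
        (pow_ne_zero 2 hs0)
    exact (continuousAt_const.mul h1).continuousWithinAt
  have hint : IntegrableOn (fun s : ℝ => K * (4 / X ^ 2) * (Real.sin (X / s) ^ 2 / s ^ 2))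
      (Set.Ioc 1 2) := (hcont.integrableOn_Icc).mono_set Ioc_subset_Icc_self
  calc ENNReal.ofReal (K * (3 / 4) / X ^ 2)
      ≤ ENNReal.ofReal (∫ s in Set.Ioc (1:ℝ) 2,
          K * (4 / X ^ 2) * (Real.sin (X / s) ^ 2 / s ^ 2)) := by
        apply ENNReal.ofReal_le_ofReal
        rw [integral_const_mul, ← intervalIntegral.integral_of_le (by norm_num : (1:ℝ) ≤ 2)]
        have h1 := int_low X hX
        have h2 : 0 ≤ K * (4 / X ^ 2) := by positivity
        calc K * (3 / 4) / X ^ 2 = K * (4 / X ^ 2) * (3 / 16) := by field_simp; ring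
          _ ≤ _ := mul_le_mul_of_nonneg_left h1 h2
    _ = ∫⁻ s in Set.Ioc (1:ℝ) 2,
          ENNReal.ofReal (K * (4 / X ^ 2) * (Real.sin (X / s) ^ 2 / s ^ 2)) := by
        rw [ofReal_integral_eq_lintegral_ofReal hint]
        exact Eventually.of_forall fun s => by positivity
    _ ≤ ∫⁻ s in Set.Ioc (1:ℝ) 2, ENNReal.ofReal (ker n q s x) := by
        refine setLIntegral_mono' measurableSet_Ioc fun s hs => ?_
        exact ENNReal.ofReal_le_ofReal (hker s ⟨hs.1.le, hs.2⟩)
    _ ≤ ∫⁻ s in Ioi (0:ℝ), ENNReal.ofReal (ker n q s x) := by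
        refine lintegral_mono_set ?_
        intro s hs
        exact lt_trans zero_lt_one hs.1

end Pool.Agent.Run7.h579.SV
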