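import Pool.Agent.Run7.h495.SV.Stm

set_option autoImplicit false
open MeasureTheory Set Filter Topology Metric Module
open scoped ENNReal RealInnerProductSpace ContDiff FourierTransform SchwartzMap

namespace Pool.Agent.Run7.h579.SV

open Pool.Agent.Run7.h495.SV

theorem t_DEC : S_DEC := by
  intro n φ hφ
  obtain ⟨g, hg⟩ : ∃ g : Eu n → ℂ, g = fun x => (φ x : ℂ) := ⟨_, rfl⟩
  have hg1 : HasCompactSupport g := by
    rw [hg]
    exact hφ.compact.comp_left (g := ((↑) : ℝ → ℂ)) Complex.ofReal_zero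
  have hg2 : ContDiff ℝ ∞ g := by
    rw [hg]
    exact Complex.ofRealCLM.contDiff.comp hφ.smooth
  obtain ⟨f, hf⟩ : ∃ f : 𝓢(Eu n, ℂ), ∀ x, f x = g x := ⟨hg1.toSchwartzMap hg2, fun _ => rfl⟩
  have hfg : (f : Eu n → ℂ) = g := funext hf
  obtain ⟨F, hF⟩ : ∃ F : 𝓢(Eu n, ℂ), F = 𝓕 f := ⟨_, rfl⟩
  obtain ⟨c, hc⟩ : ∃ c : ℝ, c = (2 * Real.pi)⁻¹ := ⟨_, rfl⟩
  have hc0 : 0 < c := by
    rw [hc]
    positivity
  have hc1 : 2 * Real.pi * c = 1 := by
    rw [hc]
    exact mul_inv_cancel₀ (by positivity)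
  have hft : ∀ ξ, ft φ ξ = F (c • ξ) := by
    intro ξ
    rw [hF, SchwartzMap.fourier_coe, Real.fourier_eq', hfg, hg]
    unfold ft
    refine integral_congr_ae (Eventually.of_forall fun v => ?_)
    simp only [smul_eq_mul]
    congr 2
    rw [real_inner_smul_right]
    have : -2 * Real.pi * (c * ⟪v, ξ⟫) = -(⟪v, ξ⟫ : ℝ) := by
      have : -2 * Real.pi * (c * ⟪v, ξ⟫) = -((2 * Real.pi * c) * ⟪v, ξ⟫) := by ring
      rw [this, hc1, one_mul]
    rw [this]
    push_cast
    rfl
  refine ⟨?_, ?_, ?_⟩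
  · have : ft φ = fun ξ => F (c • ξ) := funext hft
    rw [this]
    exact F.continuous.comp (continuous_const_smul _)
  · have h1 : Integrable (fun x => ‖F x‖) := F.integrable.norm
    have h2 : Integrable (fun x => ‖x‖ ^ 1 * ‖F x‖) := F.integrable_pow_mul volume 1
    have h3 : Integrable (fun x => ‖F x‖ + c⁻¹ * (‖x‖ ^ 1 * ‖F x‖)) := h1.add (h2.const_mul _)
    have h4 := h3.comp_smul hc0.ne'
    refine h4.congr (Eventually.of_forall fun x => ?_)
    simp only
    rw [hft, norm_smul, Real.norm_eq_abs, abs_of_pos hc0, pow_one]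
    have : c⁻¹ * (c * ‖x‖ * ‖F (c • x)‖) = ‖x‖ * ‖F (c • x)‖ := by
      field_simp
    rw [this]
    ring
  · have h1 : ∫ x, ft φ x = ∫ x, F (c • x) := by
      refine integral_congr_ae (Eventually.of_forall fun v => ?_)
      exact hft v
    rw [h1, Measure.integral_comp_smul]
    have h2 : ∫ x, F x = 0 := by
      have h3 : 𝓕⁻ F = f := by
        rw [hF]
        exact FourierPair.fourierInv_fourier_eq f
      have h4 : (𝓕⁻ F) 0 = f 0 := by rw [h3]
      rw [SchwartzMap.fourierInv_coe, Real.fourierInv_eq'] at h4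
      have h5 : f 0 = 0 := by
        rw [hf, hg]
        have := image_eq_zero_of_notMem_tsupport hφ.zero
        simp [this]
      rw [h5] at h4
      simpa using h4
    rw [h2, smul_zero]

end Pool.Agent.Run7.h579.SV
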