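import Pool.Agent.Run7.h495.SV.Stm

set_option autoImplicit false
open MeasureTheory Set Filter Topology Metric Module
open scoped ENNReal RealInnerProductSpace ContDiff

namespace Pool.Agent.Run7.h579.SV

open Pool.Agent.Run7.h495.SV

theorem anti1 (a : ℂ) (ha : a ≠ 0) (v : ℝ) :
    HasDerivAt (fun v : ℝ => (2 - (v : ℂ)) * Complex.exp (a * v) / a + Complex.exp (a * v) / a ^ 2)
      (Complex.exp (a * v) * (2 - (v : ℂ))) v := by
  have h0 : HasDerivAt (fun v : ℝ => (v : ℂ)) 1 v := Complex.ofRealCLM.hasDerivAt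
  have h1 : HasDerivAt (fun v : ℝ => Complex.exp (a * v)) (Complex.exp (a * v) * (a * 1)) v :=
    (h0.const_mul a).cexp
  have h2 : HasDerivAt (fun v : ℝ => (2 - (v : ℂ))) (-1) v := by
    simpa using h0.const_sub 2
  have h3 := ((h2.mul h1).div_const a).add (h1.div_const (a ^ 2))
  refine h3.congr_deriv ?_
  field_simp
  ring

theorem anti2 (a : ℂ) (ha : a ≠ 0) (v : ℝ) :
    HasDerivAt (fun v : ℝ => (2 + (v : ℂ)) * Complex.exp (a * v) / a - Complex.exp (a * v) / a ^ 2)
      (Complex.exp (a * v) * (2 + (v : ℂ))) v := by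
  have h0 : HasDerivAt (fun v : ℝ => (v : ℂ)) 1 v := Complex.ofRealCLM.hasDerivAt
  have h1 : HasDerivAt (fun v : ℝ => Complex.exp (a * v)) (Complex.exp (a * v) * (a * 1)) v :=
    (h0.const_mul a).cexp
  have h2 : HasDerivAt (fun v : ℝ => (2 + (v : ℂ))) 1 v := h0.const_add 2
  have h3 := ((h2.mul h1).div_const a).sub (h1.div_const (a ^ 2))
  refine h3.congr_deriv ?_
  field_simp
  ring

/-- the integral over the line is the sum of two integrals -/
theorem split (g : ℝ → ℂ) (hg : Continuous g) :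
    ∫ v : ℝ, g v * (tent v : ℂ) =
      (∫ v in (-2:ℝ)..0, g v * (2 + (v : ℂ))) + ∫ v in (0:ℝ)..2, g v * (2 - (v : ℂ)) := by
  have htc : Continuous tent := by
    unfold tent
    fun_prop
  have h1 : ∫ v : ℝ, g v * (tent v : ℂ) = ∫ v in Ioc (-2:ℝ) 2, g v * (tent v : ℂ) := by
    rw [setIntegral_eq_integral_of_forall_compl_eq_zero]
    intro v hv
    have : tent v = 0 := by
      unfold tent
      rw [max_eq_left]
      by_contra hcon
      push Not at hcon
      have h2 : |v| < 2 := by linarith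
      rw [abs_lt] at h2
      exact hv ⟨h2.1, h2.2.le⟩
    rw [this]
    simp
  rw [h1, ← intervalIntegral.integral_of_le (by norm_num : (-2:ℝ) ≤ 2)]
  have hcont : Continuous fun v : ℝ => g v * (tent v : ℂ) :=
    hg.mul (Complex.continuous_ofReal.comp htc)
  rw [← intervalIntegral.integral_add_adjacent_intervals (b := 0)
    (hcont.intervalIntegrable _ _) (hcont.intervalIntegrable _ _)]
  congr 1
  · refine intervalIntegral.integral_congr fun v hv => ?_
    rw [Set.uIcc_of_le (by norm_num : (-2:ℝ) ≤ 0)] at hv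
    have : tent v = 2 + v := by
      unfold tent
      rw [abs_of_nonpos hv.2, max_eq_right (by linarith [hv.1])]
      ring
    simp only [this]
    push_cast
    rfl
  · refine intervalIntegral.integral_congr fun v hv => ?_
    rw [Set.uIcc_of_le (by norm_num : (0:ℝ) ≤ 2)] at hv
    have : tent v = 2 - v := by
      unfold tent
      rw [abs_of_nonneg hv.1, max_eq_right (by linarith [hv.2])]
    simp only [this]
    push_cast
    rfl

theorem t_TENT : S_TENT := by
  intro η
  have hg : Continuous fun v : ℝ => Complex.exp (-((v * η : ℝ) : ℂ) * Complex.I) := by fun_prop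
  rw [split _ hg]
  rcases eq_or_ne η 0 with h | h
  · subst h
    have e1 : (∫ v in (-2:ℝ)..0, Complex.exp (-((v * (0:ℝ) : ℝ) : ℂ) * Complex.I) * (2 + (v : ℂ)))
        = 2 := by
      have e : (fun v : ℝ => Complex.exp (-((v * (0:ℝ) : ℝ) : ℂ) * Complex.I) * (2 + (v : ℂ)))
          = fun v : ℝ => (((2 + v : ℝ)) : ℂ) := by
        funext v
        simp
      rw [e, intervalIntegral.integral_ofReal]
      have : ∫ v in (-2:ℝ)..0, (2 + v) = 2 := by
        rw [intervalIntegral.integral_add (by simp) (by simp), integral_id,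
          intervalIntegral.integral_const]
        norm_num
      rw [this]
      norm_num
    have e2 : (∫ v in (0:ℝ)..2, Complex.exp (-((v * (0:ℝ) : ℝ) : ℂ) * Complex.I) * (2 - (v : ℂ)))
        = 2 := by
      have e : (fun v : ℝ => Complex.exp (-((v * (0:ℝ) : ℝ) : ℂ) * Complex.I) * (2 - (v : ℂ)))
          = fun v : ℝ => (((2 - v : ℝ)) : ℂ) := by
        funext v
        simp
      rw [e, intervalIntegral.integral_ofReal]
      have : ∫ v in (0:ℝ)..2, (2 - v) = 2 := by
        rw [intervalIntegral.integral_sub (by simp) (by simp), integral_id,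
          intervalIntegral.integral_const]
        norm_num
      rw [this]
      norm_num
    rw [e1, e2, Real.sinc_zero]
    norm_num
  · obtain ⟨a, ha⟩ : ∃ a : ℂ, a = -(η : ℂ) * Complex.I := ⟨_, rfl⟩
    have ha0 : a ≠ 0 := by
      rw [ha]
      refine mul_ne_zero (neg_ne_zero.mpr ?_) Complex.I_ne_zero
      exact_mod_cast h
    have ee : ∀ v : ℝ, Complex.exp (-((v * η : ℝ) : ℂ) * Complex.I) = Complex.exp (a * v) := by
      intro v
      rw [ha]
      congr 1
      push_cast
      ring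
    simp only [ee]
    have c1 : Continuous fun v : ℝ => Complex.exp (a * v) * (2 + (v : ℂ)) := by fun_prop
    have c2 : Continuous fun v : ℝ => Complex.exp (a * v) * (2 - (v : ℂ)) := by fun_prop
    rw [intervalIntegral.integral_eq_sub_of_hasDerivAt (fun v _ => anti2 a ha0 v)
      (c1.intervalIntegrable _ _),
      intervalIntegral.integral_eq_sub_of_hasDerivAt (fun v _ => anti1 a ha0 v)
      (c2.intervalIntegrable _ _)]
    have hsq : a ^ 2 = -((η : ℂ) ^ 2) := by
      rw [ha, mul_pow, Complex.I_sq]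
      ring
    have hη : (η : ℂ) ≠ 0 := by exact_mod_cast h
    have hcos : Complex.exp (a * ((2 : ℝ) : ℂ)) + Complex.exp (a * ((-2 : ℝ) : ℂ)) =
        2 - 4 * (Real.sin η : ℂ) ^ 2 := by
      have h1 : Complex.exp (a * ((2 : ℝ) : ℂ)) + Complex.exp (a * ((-2 : ℝ) : ℂ)) =
          2 * Complex.cos (2 * η) := by
        rw [Complex.two_cos, add_comm]
        congr 2
        · rw [ha]; push_cast; ring
        · rw [ha]; push_cast; ring
      rw [h1, Complex.cos_two_mul, Complex.cos_sq', Complex.ofReal_sin]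
      ring
    rw [Real.sinc_of_ne_zero h]
    have hfin : ((2 + ((0 : ℝ) : ℂ)) * Complex.exp (a * ((0 : ℝ) : ℂ)) / a -
        Complex.exp (a * ((0 : ℝ) : ℂ)) / a ^ 2 -
        ((2 + ((-2 : ℝ) : ℂ)) * Complex.exp (a * ((-2 : ℝ) : ℂ)) / a -
          Complex.exp (a * ((-2 : ℝ) : ℂ)) / a ^ 2)) +
        ((2 - ((2 : ℝ) : ℂ)) * Complex.exp (a * ((2 : ℝ) : ℂ)) / a +
          Complex.exp (a * ((2 : ℝ) : ℂ)) / a ^ 2 -
        ((2 - ((0 : ℝ) : ℂ)) * Complex.exp (a * ((0 : ℝ) : ℂ)) / a +
          Complex.exp (a * ((0 : ℝ) : ℂ)) / a ^ 2)) =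
        (Complex.exp (a * ((2 : ℝ) : ℂ)) + Complex.exp (a * ((-2 : ℝ) : ℂ)) - 2) / a ^ 2 := by
      have e0 : Complex.exp (a * ((0 : ℝ) : ℂ)) = 1 := by simp
      rw [e0]
      have e2 : (2 + ((-2 : ℝ) : ℂ)) = 0 := by push_cast; ring
      have e3 : (2 - ((2 : ℝ) : ℂ)) = 0 := by push_cast; ring
      have e4 : ((0 : ℝ) : ℂ) = 0 := by simp
      rw [e2, e3, e4]
      field_simp
      ring
    rw [hfin, hcos, hsq]
    push_cast
    field_simp
    ring

end Pool.Agent.Run7.h579.SV
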